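import Pool.Agent.H10.TB.Final

/-!
# A tight Banach space with a basis which is not tight

We answer Q1 in the affirmative, for real and for complex scalars.

The construction. Let `φ(n) = (n+1)!`. For a finitely supported sequence `μ : ℕ → V` of vectors of a
normed space and an interval `I` put `S μ I = ∑_{t ∈ I} μ t`. A family of `n` successive intervals
`[cᵢ, dᵢ] ⊆ I`, `c₀ ≤ d₀ < c₁ ≤ d₁ < …`, is called admissible in `I` if `n ≤ φ(c₀)`. For
`0 < θ ≤ 1/2` the norms `N_I μ` are defined by the recursion
`N_I μ = sup_{J ⊆ I} ‖S μ J‖ + θ sup ∑ᵢ N_{Iᵢ} μ`, the second supremum over the families `(Iᵢ)` of
intervals which are admissible in `I`. The sum, instead of a maximum, in this recursion of Tsirelson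
type has the effect that finite dimensional subspaces of tails are isomorphic to subspaces of sums
`ℓ₁(V)`, by means of the values `S μ F` on finitely many intervals `F` (Theorem S).

The space `Y` is the completion of the space of finitely supported scalar sequences `y` for the norm
with `θ = 1/2` of the sequence of the multiples `yᵢ hᵢ` of the unit vectors in `V = ℓ₂`. The space `X`
is the completion, for the norm with `θ = 1/4`, of the space of the finitely supported sequences
`μ : ℕ → Y` with `μ t ∈ span (y₀, …, y_t)`. The basis `f` of `X` consists of the vectors
`f_{i,r} = y_i δ_r` with `i ≤ r`, ordered by rounds `r`, and by `i` inside a round. The basis `e`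
consists of `e_{r,r} = f_{r,r}` and the differences `e_{i,r} = f_{i,r} - f_{i,r-1}`, `i < r`, in the
same order.

The basis `f` is not tight. The vectors `f_{i,i}` span a copy of `Y`, and for every sequence of
successive intervals one finds an infinite set `A` and rounds `r(i)` such that the `f_{i,r(i)}` avoid
the intervals with indices in `A` and still span a copy of `Y`.

The basis `e` is tight. Every closed infinite-dimensional subspace of `X` contains either almost
successive blocks with total mass `∑ μ t = 0`, or a sequence on which the total mass map `X → Y` is an
isomorphism onto almost successive blocks of `Y`. If these sequences embed in the span of the `e_n`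
outside large gaps then, by Theorem S and since a total mass can only be transported through a gap by
the coordinates of `e` inside the gap, the sequences embed uniformly, on long initial segments, in
`ℓ₁(Y)` (first case) or `ℓ₁(ℓ₂)` (second case). The second is excluded by an ultrafilter argument
since `X` and `Y` do not contain `ℓ₁` while their bases have large lower estimates, and the first by
an extremal argument on the ratio of two norms.
-/

namespace Pool.Agent.Results.MP_f83316_an.TightSpaceNonTightBasis

open Pool.Agent.H10.TB

/-- **Theorem.** Over `ℝ` and over `ℂ` there is an infinite-dimensional Banach space `X` with Schauder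
bases `e` and `f` such that `e` is tight and `f` is not tight. -/
theorem result (𝕜 : Type) [RCLike 𝕜] :
    ∃ (X : Type) (_ : NormedAddCommGroup X) (_ : NormedSpace 𝕜 X), CompleteSpace X ∧
      ¬ FiniteDimensional 𝕜 X ∧ ∃ e f : SchauderBasis 𝕜 X, TightBasis e ∧ ¬ TightBasis f :=
  exists_tight_space_nontight_basis 𝕜

end Pool.Agent.Results.MP_f83316_an.TightSpaceNonTightBasis
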